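import Pool.Agent.Helper49.LC.St

/-!
Project LC (MP_58b586_gt): module LOC, an unknotted knot is unknotted inside any larger concentric ball.
-/

set_option autoImplicit false

open scoped ContDiff

namespace Pool.Agent.Helper99.LC

open Pool.Agent.Helper14.LK Pool.Agent.Helper49.LC

section main

variable {n : ℕ}

private theorem norm_pl (x : EE n) : ‖((x, 0) : WW n)‖ = ‖x‖ := by
  rw [Prod.norm_def, norm_zero, max_eq_left (norm_nonneg x)]

private theorem kn_mono {ι : EE n → WW n} {R R' : ℝ} (hk : Kn ι 0 R') (h : R' ≤ R) : Kn ι 0 R := by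
  refine ⟨lt_of_lt_of_le hk.pos h, hk.sm, hk.iso, hk.imm, hk.inj, fun x hx => hk.far x (h.trans hx),
    fun x hx => ?_⟩
  rcases le_total ‖x - 0‖ R' with h1 | h1
  · exact (hk.near x h1).trans h
  · rw [hk.far x h1, Prod.mk_zero_zero, sub_zero, norm_pl]
    rwa [sub_zero] at hx

private theorem fd {f : WW n → WW n} (hf : Differentiable ℝ f) {l : ℝ} (hl : l ≠ 0) (x u : EE n) :
    fderiv ℝ (fun x : EE n => l • f (l⁻¹ • x, 0)) x u = fderiv ℝ f (l⁻¹ • x, 0) (u, 0) := by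
  obtain ⟨L, hL⟩ : ∃ L : EE n →L[ℝ] WW n, ∀ y, L y = (l⁻¹ • y, 0) :=
    ⟨(l⁻¹ • ContinuousLinearMap.id ℝ (EE n)).prod 0, fun y => rfl⟩
  have h1 : (fun x : EE n => l • f (l⁻¹ • x, 0)) = fun x => l • f (L x) := by
    funext y
    rw [hL]
  have h2 : HasFDerivAt (fun x => l • f (L x)) (l • ((fderiv ℝ f (L x)).comp L)) x :=
    ((hf (L x)).hasFDerivAt.comp x L.hasFDerivAt).const_smul l
  rw [h1, h2.fderiv]
  change l • (fderiv ℝ f (L x)) (L u) = _
  rw [hL, hL]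
  have h3 : ((l⁻¹ • u, 0) : WW n) = l⁻¹ • (u, 0) := by
    ext i
    · rfl
    · simp
  rw [h3, map_smul, smul_smul, mul_inv_cancel₀ hl, one_smul]

/-- the first isotopy: shrinking -/
private theorem kn_shrink {Φ Φi : WW n → WW n} (hsm : ContDiff ℝ ∞ Φ) (hl : ∀ w, Φi (Φ w) = w)
    (hsy : ∀ w a b, om (fderiv ℝ Φ w a) (fderiv ℝ Φ w b) = om a b) {r₁ R : ℝ} (hR : 0 < R)
    (hr : 0 < r₁) (hs : ∀ w, r₁ ≤ ‖w‖ → Φ w = w) :
    Kn (fun x : EE n => (R / r₁) • Φ ((R / r₁)⁻¹ • x, 0)) 0 R := by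
  have hpos : 0 < R / r₁ := div_pos hR hr
  have hne : R / r₁ ≠ 0 := hpos.ne'
  have hball : ∀ w, ‖w‖ ≤ r₁ → ‖Φ w‖ ≤ r₁ := by
    intro w hw
    by_contra h
    rw [not_le] at h
    have h1 := hs (Φ w) h.le
    have h2 : Φ w = w := by
      have h3 := congrArg Φi h1
      rw [hl, hl] at h3
      exact h3
    rw [h2] at h
    exact absurd hw (not_le.2 h)
  have hdf : Differentiable ℝ Φ := hsm.differentiable (by simp)
  have hinv : (R / r₁)⁻¹ = r₁ / R := inv_div R r₁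
  refine ⟨hR, ?_, ?_, ?_, ?_, ?_, ?_⟩
  · have h1 : ContDiff ℝ ∞ (fun x : EE n => (R / r₁)⁻¹ • x) := contDiff_id.const_smul _
    have h2 : ContDiff ℝ ∞ (fun x : EE n => (((R / r₁)⁻¹ • x, 0) : WW n)) :=
      h1.prodMk contDiff_const
    exact (hsm.comp h2).const_smul _
  · intro x u v
    rw [fd hdf hne, fd hdf hne, hsy]
    simp [om]
  · intro x u hu
    rw [fd hdf hne] at hu
    have h1 := hsy ((R / r₁)⁻¹ • x, 0) (u, 0) (0, u)
    rw [hu, om_zero_left] at h1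
    have h2 : inner ℝ u u = (0 : ℝ) := by
      have h3 : om ((u, 0) : WW n) (0, u) = inner ℝ u u := by simp [om]
      rw [← h3]
      exact h1.symm
    exact inner_self_eq_zero.1 h2
  · intro x y hxy
    have h1 : Φ ((R / r₁)⁻¹ • x, 0) = Φ ((R / r₁)⁻¹ • y, 0) := by
      have h2 := congrArg (fun w => (R / r₁)⁻¹ • w) hxy
      simpa only [smul_smul, inv_mul_cancel₀ hne, one_smul] using h2
    have h3 := congrArg Φi h1
    rw [hl, hl] at h3
    have h4 : (R / r₁)⁻¹ • x = (R / r₁)⁻¹ • y := congrArg Prod.fst h3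
    have h5 := congrArg (fun w => (R / r₁) • w) h4
    simpa only [smul_smul, mul_inv_cancel₀ hne, one_smul] using h5
  · intro x hx
    rw [sub_zero] at hx
    have h1 : r₁ ≤ ‖(((R / r₁)⁻¹ • x, 0) : WW n)‖ := by
      rw [norm_pl, norm_smul, hinv, Real.norm_of_nonneg (div_pos hr hR).le, div_mul_eq_mul_div,
        le_div_iff₀ hR]
      exact mul_le_mul_of_nonneg_left hx hr.le
    change (R / r₁) • Φ ((R / r₁)⁻¹ • x, 0) = (x, 0)
    rw [hs _ h1, Prod.smul_mk, smul_smul, mul_inv_cancel₀ hne, one_smul, smul_zero]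
  · intro x hx
    rw [sub_zero] at hx
    have h1 : ‖(((R / r₁)⁻¹ • x, 0) : WW n)‖ ≤ r₁ := by
      rw [norm_pl, norm_smul, hinv, Real.norm_of_nonneg (div_pos hr hR).le, div_mul_eq_mul_div,
        div_le_iff₀ hR]
      exact mul_le_mul_of_nonneg_left hx hr.le
    change ‖(R / r₁) • Φ ((R / r₁)⁻¹ • x, 0) - (0, 0)‖ ≤ R
    rw [Prod.mk_zero_zero, sub_zero, norm_smul, Real.norm_of_nonneg hpos.le, div_mul_eq_mul_div,
      div_le_iff₀ hr]
    exact mul_le_mul_of_nonneg_left (hball _ h1) hR.le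

private theorem loc0 (hLIT : StLIT) (hGRP : StGRP) (hKNB : StKNB) (hn : 2 ≤ n)
    {κ : EE n → WW n} {R : ℝ} (hκ : Kn κ 0 R) (hE : Eq1 (Plane n) (Set.range κ)) {r : ℝ}
    (hr : R < r) : ∃ f g : WW n → WW n, HB (0 : WW n) r f g ∧ f '' Plane n = Set.range κ := by
  have hR := hκ.pos
  obtain ⟨r₀, f₀, g₀, ⟨Φ, Φi, hΦ, hΦi, hleft, _, hsy, hid, hsupp, hf, _⟩, him⟩ := hE
  obtain ⟨r₁, hr₁⟩ : ∃ r₁, r₁ = max r₀ R := ⟨_, rfl⟩
  have hr₁R : R ≤ r₁ := hr₁ ▸ le_max_right _ _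
  have hr₁0 : 0 < r₁ := lt_of_lt_of_le hR hr₁R
  have hs : ∀ t w, r₁ ≤ ‖w‖ → Φ t w = w := by
    intro t w hw
    apply hsupp
    rw [sub_zero]
    exact ((le_max_left r₀ R).trans_eq hr₁.symm).trans hw
  have hsm : ∀ t, ContDiff ℝ ∞ (Φ t) := fun t => hΦ.comp (contDiff_const.prodMk contDiff_id)
  obtain ⟨l, hl⟩ : ∃ l, l = R / r₁ := ⟨_, rfl⟩
  have hl0 : 0 < l := hl ▸ div_pos hR hr₁0
  have hl1 : l ≤ 1 := by
    rw [hl, div_le_one hr₁0]
    exact hr₁R
  -- first isotopy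
  obtain ⟨f₁, g₁, hHB₁, him₁⟩ := hLIT n hn (fun t x => l • Φ t (l⁻¹ • x, 0)) R r hr (by
      have h0 : ContDiff ℝ ∞ (fun p : ℝ × EE n => l⁻¹ • p.2) := contDiff_snd.const_smul _
      have h0' : ContDiff ℝ ∞ (fun p : ℝ × EE n => ((l⁻¹ • p.2, 0) : WW n)) :=
        h0.prodMk contDiff_const
      have h1 : ContDiff ℝ ∞ (fun p : ℝ × EE n => ((p.1, (l⁻¹ • p.2, 0)) : ℝ × WW n)) :=
        contDiff_fst.prodMk h0'
      exact (hΦ.comp h1).const_smul l) (by
      intro t _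
      rw [hl]
      exact kn_shrink (hsm t) (hleft t) (hsy t) hR hr₁0 (hs t))
  have hr0 : Set.range (fun x : EE n => l • Φ 0 (l⁻¹ • x, 0)) = Plane n := by
    ext w
    constructor
    · rintro ⟨x, rfl⟩
      change (l • Φ 0 (l⁻¹ • x, 0)).2 = 0
      rw [hid]
      simp
    · intro hw
      have hw' : w.2 = 0 := hw
      refine ⟨w.1, ?_⟩
      change l • Φ 0 (l⁻¹ • w.1, 0) = w
      rw [hid, Prod.smul_mk, smul_smul, mul_inv_cancel₀ hl0.ne', one_smul, smul_zero, ← hw']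
  have hr1 : Set.range (fun x : EE n => l • Φ 1 (l⁻¹ • x, 0)) = tm 0 l '' Set.range κ := by
    rw [← him]
    ext w
    constructor
    · rintro ⟨x, rfl⟩
      refine ⟨f₀ (l⁻¹ • x, 0), ⟨(l⁻¹ • x, 0), rfl, rfl⟩, ?_⟩
      change ((0, 0) : WW n) + l • f₀ (l⁻¹ • x, 0) = l • Φ 1 (l⁻¹ • x, 0)
      rw [Prod.mk_zero_zero, zero_add, hf]
    · rintro ⟨_, ⟨p, hp, rfl⟩, rfl⟩
      have hp' : p.2 = 0 := hp
      refine ⟨l • p.1, ?_⟩
      change l • Φ 1 (l⁻¹ • l • p.1, 0) = ((0, 0) : WW n) + l • f₀ p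
      rw [smul_smul, inv_mul_cancel₀ hl0.ne', one_smul, Prod.mk_zero_zero, zero_add, hf, ← hp']
  rw [hr0, hr1] at him₁
  -- second isotopy
  obtain ⟨μ, hμ⟩ : ∃ μ : ℝ → ℝ, ∀ t, μ t =
    (1 - Real.smoothTransition t) * l + Real.smoothTransition t := ⟨_, fun _ => rfl⟩
  have hμsm : ContDiff ℝ ∞ μ := by
    have h1 : μ = fun t => (1 - Real.smoothTransition t) * l + Real.smoothTransition t := by
      funext t
      exact hμ t
    rw [h1]
    exact ((contDiff_const.sub Real.smoothTransition.contDiff).mul contDiff_const).add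
      Real.smoothTransition.contDiff
  have hμpos : ∀ t, 0 < μ t := by
    intro t
    rw [hμ]
    have h1 := Real.smoothTransition.nonneg t
    have h2 := Real.smoothTransition.le_one t
    nlinarith
  have hμle : ∀ t, μ t ≤ 1 := by
    intro t
    rw [hμ]
    have h1 := Real.smoothTransition.nonneg t
    have h2 := Real.smoothTransition.le_one t
    nlinarith
  obtain ⟨f₂, g₂, hHB₂, him₂⟩ := hLIT n hn (fun t => pc 0 (μ t) κ) R r hr (by
      have h1 : ContDiff ℝ ∞ (fun p : ℝ × EE n => μ p.1) := hμsm.comp contDiff_fst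
      have h2 : ContDiff ℝ ∞ (fun p : ℝ × EE n => (μ p.1)⁻¹) := h1.inv fun p => (hμpos p.1).ne'
      have h3 : ContDiff ℝ ∞ (fun p : ℝ × EE n =>
          (((0 : EE n), (0 : EE n)) : WW n) + μ p.1 • κ ((μ p.1)⁻¹ • (p.2 - 0))) :=
        contDiff_const.add (h1.smul (hκ.sm.comp (h2.smul (contDiff_snd.sub contDiff_const))))
      exact h3) (by
      intro t _
      have h1 := hKNB.2.1 n κ 0 0 (μ t) R hκ (hμpos t)
      rw [smul_zero, add_zero] at h1
      exact kn_mono h1 (by nlinarith [hμle t]))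
  have hμ0 : μ 0 = l := by
    rw [hμ, Real.smoothTransition.zero]
    ring
  have hμ1 : μ 1 = 1 := by
    rw [hμ, Real.smoothTransition.one]
    ring
  have hq0 : Set.range (pc 0 (μ 0) κ) = tm 0 l '' Set.range κ := by
    rw [hμ0]
    exact hKNB.2.2.1 n κ 0 l hl0
  have hq1 : Set.range (pc 0 (μ 1) κ) = Set.range κ := by
    rw [hμ1]
    congr 1
    funext x
    change ((0, 0) : WW n) + (1 : ℝ) • κ ((1 : ℝ)⁻¹ • (x - 0)) = κ x
    rw [Prod.mk_zero_zero, zero_add, one_smul, inv_one, one_smul, sub_zero]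
  rw [hq0, hq1] at him₂
  refine ⟨fun w => f₂ (f₁ w), fun w => g₁ (g₂ w),
    hGRP.2.2.1 n 0 r f₂ g₂ f₁ g₁ hHB₂ hHB₁, ?_⟩
  rw [← him₂, ← him₁, Set.image_image]

end main

theorem hLOC (hLIT : StLIT) (hGRP : StGRP) (hKNB : StKNB) (hEQV : StEQV) : StLOC := by
  intro n hn κ c R hκ hE r hr
  have hκ' : Kn (pc (-c) 1 κ) 0 R := by
    have h1 := hKNB.2.1 n κ c (-c) 1 R hκ one_pos
    rwa [one_smul, neg_add_cancel, one_mul] at h1
  have hrange : Set.range (pc (-c) 1 κ) = tm (-c) 1 '' Set.range κ :=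
    hKNB.2.2.1 n κ (-c) 1 one_pos
  have htm : ∀ (a : EE n) (w : WW n), tm a 1 w = (a, 0) + w := by
    intro a w
    change (a, 0) + (1 : ℝ) • w = _
    rw [one_smul]
  have hti : ∀ (a : EE n) (w : WW n), ti a 1 w = w - (a, 0) := by
    intro a w
    change (1 : ℝ)⁻¹ • (w - (a, 0)) = _
    rw [inv_one, one_smul]
  have hpl : ∀ a : EE n, tm a 1 '' Plane n = Plane n := by
    intro a
    ext w
    constructor
    · rintro ⟨p, hp, rfl⟩
      have hp' : p.2 = 0 := hp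
      rw [htm]
      change (0 : EE n) + p.2 = 0
      rw [hp', zero_add]
    · intro hw
      have hw' : w.2 = 0 := hw
      refine ⟨w - (a, 0), ?_, ?_⟩
      · change w.2 - 0 = 0
        rw [hw', sub_zero]
      · rw [htm]
        abel
  have hE' : Eq1 (Plane n) (Set.range (pc (-c) 1 κ)) := by
    have h1 := hEQV.2.2.2.2.1 n (Plane n) (Set.range κ) (-c) 1 one_pos hE
    rwa [hpl, ← hrange] at h1
  obtain ⟨f, g, hHB, him⟩ := loc0 hLIT hGRP hKNB hn hκ' hE' hr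
  have h2 := hGRP.2.2.2.2.1 n 0 r f g c 1 one_pos hHB
  rw [htm, add_zero, one_mul] at h2
  refine ⟨_, _, h2, ?_⟩
  have h3 : (fun w => tm c 1 (f (ti c 1 w))) '' Plane n = tm c 1 '' (f '' Plane n) := by
    ext w
    constructor
    · rintro ⟨p, hp, rfl⟩
      refine ⟨f (ti c 1 p), ⟨ti c 1 p, ?_, rfl⟩, rfl⟩
      have hp' : p.2 = 0 := hp
      rw [hti]
      change p.2 - 0 = 0
      rw [hp', sub_zero]
    · rintro ⟨_, ⟨p, hp, rfl⟩, rfl⟩
      have hp' : p.2 = 0 := hp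
      refine ⟨(c, 0) + p, ?_, ?_⟩
      · change (0 : EE n) + p.2 = 0
        rw [hp', zero_add]
      · change tm c 1 (f (ti c 1 ((c, 0) + p))) = tm c 1 (f p)
        rw [hti, add_sub_cancel_left]
  rw [h3, him, hrange, Set.image_image]
  have h5 : ((c, 0) : WW n) + (-c, 0) = 0 := by
    rw [Prod.mk_add_mk, add_neg_cancel, add_zero, Prod.mk_zero_zero]
  have h4 : (fun w => tm c 1 (tm (-c) 1 w)) = fun w : WW n => w := by
    funext w
    rw [htm, htm, ← add_assoc, h5, zero_add]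
  rw [h4, Set.image_id']

end Pool.Agent.Helper99.LC
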